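import Mathlib

set_option autoImplicit false

/-!
# MP_93e4b7_co: the sandpile group does not determine the generator multiplicity function

On `F_2 ^ 2` the multiplicity functions with the values `1, 2, 8` and `1, 4, 5` at the three nonzero
vectors are not equivalent, and the cokernels of the two Laplacians are isomorphic
(both are isomorphic to `ℤ × ℤ / 3 × ℤ / 180`).
-/

namespace Pool.Agent.Results.MP_93e4b7_co.SameSandpileGroup

/-- The vector space `F_2 ^ r`. -/
abbrev V (r : ℕ) : Type := Fin r → ZMod 2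

/-- `μ` is a generator multiplicity function: a function on the nonzero vectors of `F_2 ^ r`
(extended by `0` at the zero vector) whose support spans `F_2 ^ r`. -/
def IsMult {r : ℕ} (μ : V r → ℕ) : Prop :=
  μ 0 = 0 ∧ Submodule.span (ZMod 2) {u | μ u ≠ 0} = ⊤

/-- The Laplacian of the Cayley graph `G(F_2 ^ r, μ)`: the vertices are the vectors, and `w ≠ w'` are
joined by `μ (w' - w)` edges; all the degrees are `∑ u, μ u`. -/
def lap {r : ℕ} (μ : V r → ℕ) : Matrix (V r) (V r) ℤ :=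
  fun w w' => if w = w' then ∑ u, (μ u : ℤ) else -(μ (w' - w) : ℤ)

/-- The cokernel `ℤ ^ N / L ℤ ^ N` of a square integer matrix. -/
abbrev Coker {ι : Type} [Fintype ι] (L : Matrix ι ι ℤ) : Type :=
  (ι → ℤ) ⧸ (LinearMap.range L.mulVecLin)

/-- The sandpile group of `G(F_2 ^ r, μ)`: the torsion subgroup of the cokernel of the Laplacian. -/
abbrev K {r : ℕ} (μ : V r → ℕ) : Type := AddCommGroup.torsion (Coker (lap μ))

/-- Two multiplicity functions are equivalent if a linear automorphism takes one to the other. -/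
def Equivalent {r : ℕ} (μ ν : V r → ℕ) : Prop :=
  ∃ T : V r ≃ₗ[ZMod 2] V r, ∀ u : V r, u ≠ 0 → ν (T u) = μ u

/-- Isomorphic groups have isomorphic torsion subgroups. -/
theorem torsion_equiv {A B : Type} [AddCommGroup A] [AddCommGroup B] (e : A ≃+ B) :
    Nonempty (AddCommGroup.torsion A ≃+ AddCommGroup.torsion B) := by
  have h : (AddCommGroup.torsion A).map (e : A →+ B) = AddCommGroup.torsion B := by
    ext b
    constructor
    · rintro ⟨a, ha, rfl⟩
      exact (AddMonoidHom.isOfFinAddOrder (e : A →+ B) ha)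
    · intro hb
      refine ⟨e.symm b, ?_, by simp⟩
      exact (AddMonoidHom.isOfFinAddOrder (e.symm : B →+ A) hb)
  exact ⟨(e.addSubgroupMap (AddCommGroup.torsion A)).trans (AddEquiv.addSubgroupCongr h)⟩

/-- If `P L = M Q` with invertible `P` and `Q` then the cokernels of `L` and `M` are isomorphic. -/
theorem coker_equiv {ι : Type} [Fintype ι] [DecidableEq ι] {L M P P' Q Q' : Matrix ι ι ℤ}
    (h : P * L = M * Q) (h1 : P * P' = 1) (h2 : P' * P = 1) (h3 : Q * Q' = 1) :
    Nonempty (Coker L ≃+ Coker M) := by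
  let e : (ι → ℤ) ≃ₗ[ℤ] (ι → ℤ) :=
    LinearEquiv.ofLinearMap P.mulVecLin P'.mulVecLin
      (by rw [← Matrix.mulVecLin_mul, h1, Matrix.mulVecLin_one])
      (by rw [← Matrix.mulVecLin_mul, h2, Matrix.mulVecLin_one])
  have hmap : (LinearMap.range L.mulVecLin).map (e : (ι → ℤ) →ₗ[ℤ] (ι → ℤ)) =
      LinearMap.range M.mulVecLin := by
    ext y
    constructor
    · rintro ⟨_, ⟨x, rfl⟩, rfl⟩
      refine ⟨Q.mulVec x, ?_⟩
      simp only [Matrix.mulVecLin_apply, LinearEquiv.coe_coe]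
      change M.mulVec (Q.mulVec x) = P.mulVec (L.mulVec x)
      rw [Matrix.mulVec_mulVec, Matrix.mulVec_mulVec, h]
    · rintro ⟨x, rfl⟩
      refine ⟨L.mulVec (Q'.mulVec x), ⟨Q'.mulVec x, rfl⟩, ?_⟩
      change P.mulVec (L.mulVec (Q'.mulVec x)) = M.mulVec x
      rw [Matrix.mulVec_mulVec, Matrix.mulVec_mulVec, h, Matrix.mul_assoc, h3, Matrix.mul_one]
  exact ⟨(Submodule.Quotient.equiv _ _ e hmap).toAddEquiv⟩

/-- The number of a vector of `F_2 ^ 2`. -/
def idx (v : V 2) : Fin 4 := ⟨(v 0).val + 2 * (v 1).val, by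
  have h0 : (v 0).val < 2 := ZMod.val_lt _
  have h1 : (v 1).val < 2 := ZMod.val_lt _
  omega⟩

/-- The multiplicity function with the values `1, 2, 8`. -/
def μ₀ (v : V 2) : ℕ := ![0, 1, 2, 8] (idx v)

/-- The multiplicity function with the values `1, 4, 5`. -/
def ν₀ (v : V 2) : ℕ := ![0, 1, 4, 5] (idx v)

/-- A matrix with the rows and columns numbered by `idx`. -/
def mat (M : Fin 4 → Fin 4 → ℤ) : Matrix (V 2) (V 2) ℤ := fun v w => M (idx v) (idx w)

def P : Matrix (V 2) (V 2) ℤ :=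
  mat ![![1, 0, 0, 0], ![232, 4, 8, -131], ![-175, -2, -5, 99], ![-57, -1, -2, 33]]
def P' : Matrix (V 2) (V 2) ℤ :=
  mat ![![1, 0, 0, 0], ![197, -33, 2, -137], ![-193, 33, -1, 134], ![-4, 1, 0, 4]]
def Q : Matrix (V 2) (V 2) ℤ :=
  mat ![![-12, 0, 1, 10], ![300, 1, -23, -279], ![-124, 0, 10, 113], ![13, 0, -1, -13]]
def Q' : Matrix (V 2) (V 2) ℤ :=
  mat ![![-17, 0, 3, 13], ![137, 1, -23, -116], ![-143, 0, 26, 116], ![-6, 0, 1, 4]]

theorem h1 : P * P' = 1 := by decide +kernel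
theorem h2 : P' * P = 1 := by decide +kernel
theorem h3 : Q * Q' = 1 := by decide +kernel
theorem h4 : P * lap μ₀ = lap ν₀ * Q := by decide +kernel

theorem span_top (s : Set (V 2)) (h0 : Pi.single 0 1 ∈ s) (h1 : Pi.single 1 1 ∈ s) :
    Submodule.span (ZMod 2) s = ⊤ := by
  rw [eq_top_iff]
  intro v _
  have hv : v = v 0 • (Pi.single 0 1 : V 2) + v 1 • (Pi.single 1 1 : V 2) := by
    funext i
    fin_cases i <;> simp
  rw [hv]
  exact Submodule.add_mem _ (Submodule.smul_mem _ _ (Submodule.subset_span h0))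
    (Submodule.smul_mem _ _ (Submodule.subset_span h1))

/-- **Q1 is false**: two generator multiplicity functions on `F_2 ^ 2` which are not
`GL`-equivalent can have isomorphic sandpile groups. -/
theorem result : ∃ (r : ℕ) (μ ν : V r → ℕ), 1 ≤ r ∧ IsMult μ ∧ IsMult ν ∧ ¬ Equivalent μ ν ∧
    Nonempty (K μ ≃+ K ν) := by
  refine ⟨2, μ₀, ν₀, by norm_num, ⟨by decide, span_top _ ?_ ?_⟩, ⟨by decide, span_top _ ?_ ?_⟩,
    ?_, ?_⟩
  · show μ₀ (Pi.single 0 1) ≠ 0
    decide
  · show μ₀ (Pi.single 1 1) ≠ 0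
    decide
  · show ν₀ (Pi.single 0 1) ≠ 0
    decide
  · show ν₀ (Pi.single 1 1) ≠ 0
    decide
  · rintro ⟨T, hT⟩
    have h5 : ν₀ (T (Pi.single 1 1)) = 2 := hT (Pi.single 1 1) (by decide)
    have h6 : ∀ v : V 2, ν₀ v ≠ 2 := by decide
    exact h6 _ h5
  · obtain ⟨e⟩ := coker_equiv h4 h1 h2 h3
    exact torsion_equiv e

end Pool.Agent.Results.MP_93e4b7_co.SameSandpileGroup
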